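import Pool.Agent.Helper78.DT.Goals3
import Pool.Agent.Helper78.LM.As1

/-!
# Derandomization of decision lists: the machine which evaluates a decision list (packet DT-LST)
-/

namespace Pool.Agent.Helper58.DT

open Pool.Agent.Helper81.CC Pool.Agent.Helper78.DT
open Pool.Agent.Helper78.LM (PT_of_comp)

/-- the inputs -/
abbrev Inp := ℕ × DList

/-- the bits of a term -/
def bts (e : List (ℕ × Bool) × Bool) : List Bool := e.1.map fun p => p.2

/-- the entry number `i` -/
def en (z : Inp) (i : ℕ) : List (ℕ × Bool) × Bool := z.2.getD i ([], false)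

/-- the action for a given entry -/
def acte (e : List (ℕ × Bool) × Bool) (a : List Bool) : ℕ :=
  if a = (bts e).take a.length then
    if a.length < e.1.length then (e.1.getD a.length (0, false)).1 + 3
    else if e.2 = true then 2 else 1
  else 0

/-- the action -/
def ac (v : View Inp) : ℕ := acte (en v.1 v.2.1) v.2.2

theorem PT_en : PolyTime (fun v : View Inp => en v.1 v.2.1) := by
  unfold en
  exact PolyTime.getD (by fun_prop) (by fun_prop) (by fun_prop)

theorem PT_bts {α : Type} [ToData α] {e : α → List (ℕ × Bool) × Bool} (he : PolyTime e) :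
    PolyTime (fun x => bts (e x)) := by
  unfold bts
  exact PolyTime.list_map (f := fun (_ : α) (p : ℕ × Bool) => p.2) (by fun_prop) (by fun_prop)

theorem PT_ac : PolyTime ac := by
  have h0 := PT_en
  have h1 : PolyTime (fun v : View Inp => bts (en v.1 v.2.1)) := PT_bts h0
  have h2 : PolyTime (fun v : View Inp =>
      decide (v.2.2 = (bts (en v.1 v.2.1)).take v.2.2.length)) :=
    PolyTime.decide_eq (by fun_prop) (PolyTime.take (by fun_prop) h1)
  have h3 : PolyTime (fun v : View Inp => (en v.1 v.2.1).1.getD v.2.2.length (0, false)) :=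
    PolyTime.getD (by fun_prop) (by fun_prop) (by fun_prop)
  have h4 : PolyTime (fun v : View Inp => (en v.1 v.2.1).1.length) :=
    PolyTime.length (PolyTime.fst h0)
  have h5 : PolyTime (fun v : View Inp => (en v.1 v.2.1).2) := PolyTime.snd h0
  show PolyTime fun v : View Inp =>
    if v.2.2 = (bts (en v.1 v.2.1)).take v.2.2.length then
      if v.2.2.length < (en v.1 v.2.1).1.length then
        ((en v.1 v.2.1).1.getD v.2.2.length (0, false)).1 + 3
      else if (en v.1 v.2.1).2 = true then 2 else 1
    else 0
  refine PolyTime.itep h2 (PolyTime.itep (PolyTime.decide_lt (by fun_prop) h4)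
    (PolyTime.add (PolyTime.fst h3) (PolyTime.const 3))
    (PolyTime.ite h5 (PolyTime.const 2) (PolyTime.const 1))) (PolyTime.const 0)

theorem PT_dsize : PolyTime dsize := by
  unfold dsize
  refine PolyTime.add (by fun_prop) (PolyTime.sum ?_)
  exact PolyTime.list_map (f := fun _ (e : List (ℕ × Bool) × Bool) => e.1.length + 1)
    (by fun_prop) (by fun_prop)

theorem len_le_dsize (z : Inp) (i : ℕ) : (en z i).1.length ≤ dsize z := by
  obtain ⟨n, F⟩ := z
  unfold en dsize
  simp only
  suffices h : (F.getD i ([], false)).1.length ≤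
      (F.map fun e : List (ℕ × Bool) × Bool => e.1.length + 1).sum by omega
  induction F generalizing i with
  | nil => simp
  | cons e F ih =>
    cases i with
    | zero => simp; omega
    | succ i =>
      have := ih i
      simp only [List.getD_cons_succ, List.map_cons, List.sum_cons]
      omega

theorem three_le {e : List (ℕ × Bool) × Bool} {a : List Bool} (h : 3 ≤ acte e a) :
    a = (bts e).take a.length ∧ a.length < e.1.length ∧
      acte e a = (e.1.getD a.length (0, false)).1 + 3 := by
  unfold acte at h ⊢
  by_cases h1 : a = (bts e).take a.length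
  · by_cases h2 : a.length < e.1.length
    · rw [if_pos h1, if_pos h2]
      exact ⟨h1, h2, rfl⟩
    · rw [if_pos h1, if_neg h2] at h
      split_ifs at h <;> omega
  · rw [if_neg h1] at h
    omega

theorem tree_ac (z : Inp) (i : ℕ) :
    {a : List Bool | ∀ k < a.length, 3 ≤ ac (z, i, a.take k)}.encard ≤
      ((2 * dsize z + 2 : ℕ) : ℕ∞) := by
  classical
  have hsub : {a : List Bool | ∀ k < a.length, 3 ≤ ac (z, i, a.take k)} ⊆
      ((insert [] ((Finset.range (en z i).1.length ×ˢ (Finset.univ : Finset Bool)).image
        fun p => (bts (en z i)).take p.1 ++ [p.2]) : Finset (List Bool)) : Set (List Bool)) := by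
    intro a ha
    rcases List.eq_nil_or_concat a with rfl | ⟨l, b, rfl⟩
    · simp
    · have h := ha l.length (by simp)
      have h' : 3 ≤ acte (en z i) l := by simpa [ac] using h
      obtain ⟨h1, h2, -⟩ := three_le h'
      rw [Finset.coe_insert, Finset.coe_image]
      refine Or.inr ⟨(l.length, b), by simpa using h2, ?_⟩
      simp only
      rw [← h1]
      simp
  refine (Set.encard_le_encard hsub).trans ?_
  rw [Set.encard_coe_eq_coe_finsetCard]
  have h1 := len_le_dsize z i
  have h2 : (insert [] ((Finset.range (en z i).1.length ×ˢ (Finset.univ : Finset Bool)).image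
        fun p => (bts (en z i)).take p.1 ++ [p.2]) : Finset (List Bool)).card ≤
      (en z i).1.length * 2 + 1 := by
    refine (Finset.card_insert_le _ _).trans (Nat.add_le_add_right ?_ 1)
    refine Finset.card_image_le.trans ?_
    simp
  have h3 : (insert [] ((Finset.range (en z i).1.length ×ˢ (Finset.univ : Finset Bool)).image
        fun p => (bts (en z i)).take p.1 ++ [p.2]) : Finset (List Bool)).card ≤
      2 * dsize z + 2 := by omega
  exact_mod_cast h3

/-- the machine -/
def mac : Machine Inp where
  m z := z.1
  T z := z.2.length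
  w z := 2 * dsize z + 2
  act := ac
  m_poly := PolyTime.computable (by fun_prop)
  T_poly := PolyTime.computable (by fun_prop)
  w_poly := PolyTime.computable
    (PolyTime.add (PolyTime.mul (PolyTime.const 2) PT_dsize) (PolyTime.const 2))
  act_poly := PolyTime.computable PT_ac
  tree := tree_ac

/-- the value of the variable `j` -/
def vl {n : ℕ} (r : Fin n → Bool) (j : ℕ) : Bool := if h : j < n then r ⟨j, h⟩ else false

/-- the term is satisfied -/
def sat {n : ℕ} (r : Fin n → Bool) (e : List (ℕ × Bool) × Bool) : Prop :=
  ∀ p ∈ e.1, vl r p.1 = p.2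

/-- the entry ends with `a`, `v` -/
def EndsE {n : ℕ} (r : Fin n → Bool) (e : List (ℕ × Bool) × Bool) (a : List Bool) (v : ℕ) :
    Prop :=
  (∀ k, ∀ h : k < a.length, 3 ≤ acte e (a.take k) ∧
    a[k] = vl r (acte e (a.take k) - 3)) ∧ acte e a = v ∧ v < 3

theorem ends_iff (n : ℕ) (F : DList) (r : Fin n → Bool) (i : ℕ) (a : List Bool) (v : ℕ) :
    mac.Ends (n, F) r i a v ↔ EndsE r (en (n, F) i) a v := Iff.rfl

theorem bts_length (e : List (ℕ × Bool) × Bool) : (bts e).length = e.1.length := by
  simp [bts]

theorem bts_getElem (e : List (ℕ × Bool) × Bool) (k : ℕ) (h : k < (bts e).length) :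
    (bts e)[k] = (e.1[k]'(by rwa [bts_length] at h)).2 := by
  simp [bts]

/-- the value at an end -/
theorem ends_val {n : ℕ} {r : Fin n → Bool} {e : List (ℕ × Bool) × Bool} {a : List Bool} {v : ℕ}
    (h : EndsE r e a v) :
    (v = 0 ∧ ¬ sat r e) ∨ (v = (if e.2 = true then 2 else 1) ∧ sat r e) := by
  obtain ⟨h1, h2, h3⟩ := h
  have hk : ∀ k, ∀ hk : k < a.length, ∃ hk' : k < e.1.length,
      a.take k = (bts e).take k ∧ a[k] = vl r (e.1[k]).1 := by
    intro k hk
    obtain ⟨h4, h5⟩ := h1 k hk
    obtain ⟨h6, h7, h8⟩ := three_le h4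
    have hl : (a.take k).length = k := by
      rw [List.length_take]; omega
    rw [hl] at h6 h7 h8
    refine ⟨h7, h6, ?_⟩
    rw [h5, h8, List.getD_eq_getElem _ _ h7]
    simp
  by_cases hag : a = (bts e).take a.length
  · right
    have hlen : ¬ a.length < e.1.length := by
      intro hlt
      unfold acte at h2
      rw [if_pos hag, if_pos hlt] at h2
      omega
    have hle : a.length ≤ e.1.length := by
      have := congrArg List.length hag
      rw [List.length_take, bts_length] at this
      omega
    have heq : a.length = e.1.length := by omega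
    constructor
    · unfold acte at h2
      rw [if_pos hag, if_neg hlen] at h2
      exact h2.symm
    · intro p hp
      obtain ⟨k, hk1, rfl⟩ := List.getElem_of_mem hp
      obtain ⟨_, -, h5⟩ := hk k (by omega)
      have ha : a = bts e := by
        rw [hag, heq, ← bts_length, List.take_length]
      have h6 : a[k]'(by omega) = (bts e)[k]'(by rw [bts_length]; exact hk1) := by
        simp only [ha]
      rw [← h5, h6, bts_getElem]
  · left
    have hv : v = 0 := by
      unfold acte at h2
      rw [if_neg hag] at h2
      exact h2.symm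
    refine ⟨hv, fun hs => hag ?_⟩
    have hle : a.length ≤ e.1.length := by
      by_contra hc
      obtain ⟨hlt, -, -⟩ := hk e.1.length (by omega)
      omega
    refine List.ext_getElem (by rw [List.length_take, bts_length]; omega) ?_
    intro k hk1 hk2
    obtain ⟨h4, -, h5⟩ := hk k hk1
    rw [List.getElem_take, bts_getElem, h5]
    exact hs _ (List.getElem_mem h4)

theorem ends_sat {n : ℕ} {r : Fin n → Bool} {e : List (ℕ × Bool) × Bool} (h : sat r e) :
    EndsE r e (bts e) (if e.2 = true then 2 else 1) := by
  refine ⟨?_, ?_, by split_ifs <;> omega⟩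
  · intro k hk
    have hk' : k < e.1.length := by rwa [bts_length] at hk
    have hl : ((bts e).take k).length = k := by
      rw [List.length_take]; omega
    have hac : acte e ((bts e).take k) = (e.1[k]).1 + 3 := by
      unfold acte
      rw [hl, if_pos rfl, if_pos hk', List.getD_eq_getElem _ _ hk']
    rw [hac]
    refine ⟨by omega, ?_⟩
    rw [bts_getElem]
    simpa using (h _ (List.getElem_mem hk')).symm
  · unfold acte
    rw [List.take_length, if_pos rfl, if_neg (by rw [bts_length]; omega)]

theorem ends_unsat {n : ℕ} {r : Fin n → Bool} {e : List (ℕ × Bool) × Bool} (h : ¬ sat r e) :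
    ∃ a, EndsE r e a 0 := by
  classical
  have hex : ∃ k, ∃ hk : k < e.1.length, vl r (e.1[k]).1 ≠ (e.1[k]).2 := by
    by_contra hc
    push Not at hc
    refine h fun p hp => ?_
    obtain ⟨k, hk1, rfl⟩ := List.getElem_of_mem hp
    exact hc k hk1
  obtain ⟨hk, hne⟩ := Nat.find_spec hex
  have hmin : ∀ j, ∀ hj : j < e.1.length, j < Nat.find hex → vl r (e.1[j]).1 = (e.1[j]).2 := by
    intro j hj hlt
    have := Nat.find_min hex hlt
    push Not at this
    exact this hj
  generalize Nat.find hex = K at hk hne hmin
  have hlK : ((bts e).take K).length = K := by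
    rw [List.length_take, bts_length]; omega
  refine ⟨(bts e).take K ++ [vl r (e.1[K]).1], ?_, ?_, by norm_num⟩
  · intro k hk1
    have hk2 : k ≤ K := by
      rw [List.length_append, hlK] at hk1
      simpa [Nat.lt_succ_iff] using hk1
    have hk' : k < e.1.length := by omega
    have htk : ((bts e).take K ++ [vl r (e.1[K]).1]).take k = (bts e).take k := by
      rw [List.take_append_of_le_length (by rw [hlK]; exact hk2), List.take_take]
      congr 1
      omega
    have hl : ((bts e).take k).length = k := by
      rw [List.length_take, bts_length]; omega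
    have hac : acte e ((bts e).take k) = (e.1[k]).1 + 3 := by
      unfold acte
      rw [hl, if_pos rfl, if_pos hk', List.getD_eq_getElem _ _ hk']
    rw [htk, hac]
    refine ⟨by omega, ?_⟩
    rcases Nat.lt_or_ge k K with hlt | hge
    · rw [List.getElem_append_left (by rw [hlK]; exact hlt), List.getElem_take, bts_getElem]
      simpa using (hmin k hk' hlt).symm
    · have hkK : k = K := le_antisymm hk2 hge
      subst hkK
      rw [List.getElem_append_right (by rw [hlK])]
      simp
  · unfold acte
    rw [if_neg]
    intro hc
    have h1 : (((bts e).take K ++ [vl r (e.1[K]).1]))[K]? =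
        ((bts e).take (((bts e).take K ++ [vl r (e.1[K]).1])).length)[K]? := by
      rw [← hc]
    have hlen : (((bts e).take K ++ [vl r (e.1[K]).1])).length = K + 1 := by
      rw [List.length_append, hlK]; rfl
    rw [hlen] at h1
    have h2 : (((bts e).take K ++ [vl r (e.1[K]).1]))[K]? = some (vl r (e.1[K]).1) := by
      rw [List.getElem?_append_right (by rw [hlK]), hlK]
      simp
    have h3 : ((bts e).take (K + 1))[K]? = some (e.1[K]).2 := by
      rw [List.getElem?_take_of_lt (by omega), List.getElem?_eq_getElem (by rw [bts_length]; exact hk),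
        bts_getElem]
    rw [h2, h3] at h1
    exact hne (Option.some.inj h1)

theorem ends_two {n : ℕ} (r : Fin n → Bool) (e : List (ℕ × Bool) × Bool) :
    (∃ a, EndsE r e a 2) ↔ (sat r e ∧ e.2 = true) := by
  constructor
  · rintro ⟨a, ha⟩
    rcases ends_val ha with ⟨h, -⟩ | ⟨h, h'⟩
    · omega
    · refine ⟨h', ?_⟩
      by_contra hc
      rw [if_neg hc] at h
      omega
  · rintro ⟨h1, h2⟩
    have := ends_sat h1
    rw [if_pos h2] at this
    exact ⟨_, this⟩

theorem ends_zero {n : ℕ} (r : Fin n → Bool) (e : List (ℕ × Bool) × Bool) :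
    (∃ a, EndsE r e a 0) ↔ ¬ sat r e := by
  constructor
  · rintro ⟨a, ha⟩
    rcases ends_val ha with ⟨-, h⟩ | ⟨h, -⟩
    · exact h
    · split_ifs at h
  · exact ends_unsat

theorem val_iff {n : ℕ} (r : Fin n → Bool) : ∀ F : DList, DList.val r F = true ↔
    ∃ i < F.length, (sat r (F.getD i ([], false)) ∧ (F.getD i ([], false)).2 = true) ∧
      ∀ j < i, ¬ sat r (F.getD j ([], false))
  | [] => by simp [DList.val]
  | e :: F => by
    have ih := val_iff r F
    by_cases hs : sat r e
    · have hv : DList.val r (e :: F) = e.2 := by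
        rw [DList.val, if_pos]
        exact hs
      rw [hv]
      constructor
      · intro h
        exact ⟨0, by simp, ⟨hs, h⟩, by simp⟩
      · rintro ⟨i, hi, ⟨h1, h2⟩, h3⟩
        cases i with
        | zero => exact h2
        | succ i => exact absurd hs (h3 0 (by omega))
    · have hv : DList.val r (e :: F) = DList.val r F := by
        rw [DList.val, if_neg]
        exact hs
      rw [hv, ih]
      constructor
      · rintro ⟨i, hi, h1, h2⟩
        refine ⟨i + 1, by simpa using hi, h1, ?_⟩
        intro j hj
        cases j with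
        | zero => exact hs
        | succ j => exact h2 j (by omega)
      · rintro ⟨i, hi, h1, h2⟩
        cases i with
        | zero => exact absurd h1.1 hs
        | succ i =>
          exact ⟨i, by simpa using hi, h1, fun j hj => h2 (j + 1) (by omega)⟩

theorem accepts_iff (n : ℕ) (F : DList) (r : Fin n → Bool) :
    mac.Accepts (n, F) r ↔ DList.val r F = true := by
  rw [val_iff]
  show (∃ i < F.length, (∃ a, EndsE r (en (n, F) i) a 2) ∧
    ∀ j < i, ∃ a, EndsE r (en (n, F) j) a 0) ↔ _
  simp only [ends_two, ends_zero]
  rfl

theorem lst (h : AllStmt) : LstStmt := by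
  intro c
  obtain ⟨f, hf, hb⟩ := h c Inp mac dsize PT_dsize.computable
  refine ⟨f, hf, fun n F => ?_⟩
  have h1 := hb (n, F)
  have h2 : mac.acc (n, F) = Nat.card {r : Fin n → Bool // DList.val r F = true} := by
    unfold Machine.acc
    exact Nat.card_congr (Equiv.subtypeEquivRight fun r => accepts_iff n F r)
  rw [h2] at h1
  exact h1

end Pool.Agent.Helper58.DT
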